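import Pool.Agent.TH317.CC.Arr

/-!
# CC-R5, part 1: finitely many adapted charts
-/

set_option autoImplicit false

universe u

namespace Pool.Agent.TH317.CC.H111

open Filter Topology

/-- the affine map of ratio `1 / l` which maps `z` to `(1 / 2, 1 / 2)` -/
noncomputable def aff (l : ℝ) (hl : l ≠ 0) (z : ℝ × ℝ) : (ℝ × ℝ) ≃ₜ (ℝ × ℝ) where
  toFun p := l⁻¹ • (p - z) + (1 / 2, 1 / 2)
  invFun q := l • (q - (1 / 2, 1 / 2)) + z
  left_inv p := by
    simp only
    rw [add_sub_cancel_right, smul_smul, mul_inv_cancel₀ hl, one_smul, sub_add_cancel]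
  right_inv q := by
    simp only
    rw [add_sub_cancel_right, smul_smul, inv_mul_cancel₀ hl, one_smul, sub_add_cancel]
  continuous_toFun := by fun_prop
  continuous_invFun := by fun_prop

theorem aff_apply (l : ℝ) (hl : l ≠ 0) (z p : ℝ × ℝ) :
    aff l hl z p = l⁻¹ • (p - z) + (1 / 2, 1 / 2) := rfl

theorem aff_symm (l : ℝ) (hl : l ≠ 0) (z q : ℝ × ℝ) :
    (aff l hl z).symm q = l • (q - (1 / 2, 1 / 2)) + z := rfl

theorem aff_contDiff (l : ℝ) (hl : l ≠ 0) (z : ℝ × ℝ) : ContDiff ℝ 1 (aff l hl z) := by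
  have : (aff l hl z : ℝ × ℝ → ℝ × ℝ) = fun p => l⁻¹ • (p - z) + (1 / 2, 1 / 2) := rfl
  rw [this]
  exact ((contDiff_id.sub contDiff_const).const_smul l⁻¹).add contDiff_const

theorem aff_symm_contDiff (l : ℝ) (hl : l ≠ 0) (z : ℝ × ℝ) :
    ContDiff ℝ 1 (aff l hl z).symm := by
  have : ((aff l hl z).symm : ℝ × ℝ → ℝ × ℝ) = fun q => l • (q - (1 / 2, 1 / 2)) + z := rfl
  rw [this]
  exact ((contDiff_id.sub contDiff_const).const_smul l).add contDiff_const

theorem aff_deriv (l : ℝ) (hl : l ≠ 0) (z p : ℝ × ℝ) :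
    HasFDerivAt (aff l hl z) (l⁻¹ • ContinuousLinearMap.id ℝ (ℝ × ℝ)) p := by
  have : (aff l hl z : ℝ × ℝ → ℝ × ℝ) = fun p => l⁻¹ • (p - z) + (1 / 2, 1 / 2) := rfl
  rw [this]
  exact (((hasFDerivAt_id p).sub_const z).const_smul l⁻¹).add_const _

theorem aff_symm_deriv (l : ℝ) (hl : l ≠ 0) (z q : ℝ × ℝ) :
    HasFDerivAt (aff l hl z).symm (l • ContinuousLinearMap.id ℝ (ℝ × ℝ)) q := by
  have : ((aff l hl z).symm : ℝ × ℝ → ℝ × ℝ) = fun q => l • (q - (1 / 2, 1 / 2)) + z := rfl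
  rw [this]
  exact (((hasFDerivAt_id q).sub_const _).const_smul l).add_const _

variable {M : Type u} [TopologicalSpace M]

/-- rescaled charts -/
def Nice (T : OrSurf M) (f : OpenPartialHomeomorph M (ℝ × ℝ)) : Prop :=
  ∃ e ∈ T.charts, ∃ (l : ℝ) (hl : 0 < l) (z : ℝ × ℝ), f = e.transHomeomorph (aff l hl.ne' z)

theorem nice_compat {T : OrSurf M} {f g : OpenPartialHomeomorph M (ℝ × ℝ)} (hf : Nice T f)
    (hg : Nice T g) : ContDiffOn ℝ 1 (fun p => g (f.symm p)) (f.symm.trans g).source ∧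
      ∀ p ∈ (f.symm.trans g).source, 0 < (fderiv ℝ (fun p => g (f.symm p)) p).det := by
  obtain ⟨e, he, l, hl, z, rfl⟩ := hf
  obtain ⟨e', he', l', hl', z', rfl⟩ := hg
  have h1 : ∀ p, p ∈ ((e.transHomeomorph (aff l hl.ne' z)).symm.trans
      (e'.transHomeomorph (aff l' hl'.ne' z'))).source →
      (aff l hl.ne' z).symm p ∈ (e.symm.trans e').source := fun p hp => hp
  have hs := T.smooth e he e' he'
  constructor
  · exact (aff_contDiff l' hl'.ne' z').comp_contDiffOn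
      (hs.comp (aff_symm_contDiff l hl.ne' z).contDiffOn h1)
  · intro p hp
    have h2 := h1 p hp
    have h3 : DifferentiableAt ℝ (fun p => e' (e.symm p)) ((aff l hl.ne' z).symm p) :=
      (hs.contDiffAt ((e.symm.trans e').open_source.mem_nhds h2)).differentiableAt one_ne_zero
    have h4 : HasFDerivAt (fun p => (e'.transHomeomorph (aff l' hl'.ne' z'))
        ((e.transHomeomorph (aff l hl.ne' z)).symm p))
        ((l'⁻¹ • ContinuousLinearMap.id ℝ (ℝ × ℝ)).comp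
          ((fderiv ℝ (fun p => e' (e.symm p)) ((aff l hl.ne' z).symm p)).comp
          (l • ContinuousLinearMap.id ℝ (ℝ × ℝ)))) p :=
      (aff_deriv l' hl'.ne' z' _).comp p (h3.hasFDerivAt.comp p (aff_symm_deriv l hl.ne' z p))
    rw [h4.fderiv]
    have h5 : ((l'⁻¹ • ContinuousLinearMap.id ℝ (ℝ × ℝ)).comp
          ((fderiv ℝ (fun p => e' (e.symm p)) ((aff l hl.ne' z).symm p)).comp
          (l • ContinuousLinearMap.id ℝ (ℝ × ℝ)))) =
        (l'⁻¹ * l) • fderiv ℝ (fun p => e' (e.symm p)) ((aff l hl.ne' z).symm p) := by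
      refine ContinuousLinearMap.ext fun v => ?_
      simp only [ContinuousLinearMap.comp_apply, smul_apply,
        ContinuousLinearMap.id_apply, map_smul]
      rw [smul_smul, mul_comm]
    rw [h5]
    have h6 : ((l'⁻¹ * l) • fderiv ℝ (fun p => e' (e.symm p)) ((aff l hl.ne' z).symm p)).det =
        (l'⁻¹ * l) ^ 2 * (fderiv ℝ (fun p => e' (e.symm p)) ((aff l hl.ne' z).symm p)).det := by
      unfold ContinuousLinearMap.det
      rw [ContinuousLinearMap.toLinearMap_smul, LinearMap.det_smul, Module.finrank_prod,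
        Module.finrank_self]
    rw [h6]
    exact mul_pos (by positivity) (T.orient e he e' he' _ h2)

/-- a chart adapted to a point -/
theorem exists_nice (T : OrSurf M) (x : M) : ∃ f, Nice T f ∧ x ∈ f.source ∧ I2 ⊆ f.target ∧
    f x = (1 / 2, 1 / 2) := by
  obtain ⟨e, he, hx⟩ := T.cover x
  have h1 : e.target ∈ 𝓝 (e x) := e.open_target.mem_nhds (e.map_source hx)
  obtain ⟨l, hl, h2⟩ := Metric.nhds_basis_closedBall.mem_iff.1 h1
  refine ⟨_, ⟨e, he, l, hl, e x, rfl⟩, hx, ?_, ?_⟩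
  · intro p hp
    show (aff l hl.ne' (e x)).symm p ∈ e.target
    apply h2
    rw [Metric.mem_closedBall, aff_symm, dist_eq_norm, add_sub_cancel_right, norm_smul,
      Real.norm_eq_abs, abs_of_pos hl]
    have h3 : ‖p - (1 / 2, 1 / 2)‖ ≤ 1 := by
      obtain ⟨⟨a1, a2⟩, ⟨a3, a4⟩⟩ := hp
      simp only at a1 a2 a3 a4
      rw [Prod.norm_def]
      refine max_le ?_ ?_
      · rw [Real.norm_eq_abs, abs_le]
        simp only [Prod.fst_sub]
        constructor <;> linarith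
      · rw [Real.norm_eq_abs, abs_le]
        simp only [Prod.snd_sub]
        constructor <;> linarith
    nlinarith
  · show aff l hl.ne' (e x) (e x) = _
    rw [aff_apply, sub_self, smul_zero, zero_add]

/-- finitely many adapted charts near a compact set -/
theorem exists_boxCharts (T : OrSurf M) {K : Set M} (hK : IsCompact K) :
    ∃ (n : ℕ) (C : BoxCharts M n), ∀ x ∈ K, ∃ i, x ∈ (C.e i).source ∧
      (1 / 4 ≤ (C.e i x).1 ∧ (C.e i x).1 ≤ 3 / 4) ∧ (1 / 4 ≤ (C.e i x).2 ∧ (C.e i x).2 ≤ 3 / 4) := by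
  choose f hf1 hf2 hf3 hf4 using exists_nice T
  obtain ⟨t, -, ht⟩ := hK.elim_nhds_subcover
    (fun x => (f x).source ∩ f x ⁻¹' (Metric.ball (1 / 2, 1 / 2) (1 / 4))) (fun x _ => by
      refine ((f x).isOpen_inter_preimage Metric.isOpen_ball).mem_nhds ⟨hf2 x, ?_⟩
      show f x x ∈ Metric.ball ((1 / 2, 1 / 2) : ℝ × ℝ) (1 / 4)
      rw [hf4 x]
      exact Metric.mem_ball_self (by norm_num))
  refine ⟨t.card, ⟨fun i => f (t.equivFin.symm i), fun i => hf3 _, fun i j =>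
    (nice_compat (hf1 _) (hf1 _)).1, fun i j => (nice_compat (hf1 _) (hf1 _)).2⟩, ?_⟩
  intro x hx
  obtain ⟨y, hy⟩ := Set.mem_iUnion.1 (ht hx)
  obtain ⟨hyt, hxy⟩ := Set.mem_iUnion.1 hy
  refine ⟨t.equivFin ⟨y, hyt⟩, ?_⟩
  simp only [Equiv.symm_apply_apply]
  refine ⟨hxy.1, ?_⟩
  have h1 : f y x ∈ Metric.ball ((1 / 2, 1 / 2) : ℝ × ℝ) (1 / 4) := hxy.2
  rw [Metric.mem_ball, Prod.dist_eq, max_lt_iff, Real.dist_eq, Real.dist_eq, abs_lt, abs_lt] at h1
  simp only at h1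
  obtain ⟨⟨a1, a2⟩, ⟨a3, a4⟩⟩ := h1
  refine ⟨⟨?_, ?_⟩, ⟨?_, ?_⟩⟩ <;> linarith

end Pool.Agent.TH317.CC.H111
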