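import Pool.Agent.TH317.CC.Arr

/-!
# CC-R5, part 2: uniform estimates for finitely many charts, the crossing times of the lines
-/

set_option autoImplicit false

universe u

namespace Pool.Agent.TH317.CC.H111

open Filter Topology

theorem fin_min {n : ℕ} {P : Fin n → ℝ → Prop} (h : ∀ i, ∃ δ > 0, P i δ)
    (hm : ∀ i δ δ', 0 < δ' → δ' ≤ δ → P i δ → P i δ') : ∃ δ > 0, ∀ i, P i δ := by
  have h1 : ∀ i, ∀ᶠ δ in 𝓝[>] (0 : ℝ), P i δ := by
    intro i
    obtain ⟨δ, hδ, hP⟩ := h i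
    filter_upwards [Ioo_mem_nhdsGT hδ] with δ' hδ'
    exact hm i δ δ' hδ'.1 hδ'.2.le hP
  have h2 : ∀ᶠ δ in 𝓝[>] (0 : ℝ), (∀ i, P i δ) ∧ 0 < δ :=
    (eventually_all.2 h1).and self_mem_nhdsWithin
  obtain ⟨δ, h3, h4⟩ := h2.exists
  exact ⟨δ, h4, h3⟩

theorem I2_compact : IsCompact I2 := isCompact_Icc

theorem mem_I2 {p : ℝ × ℝ} : p ∈ I2 ↔ (0 ≤ p.1 ∧ p.1 ≤ 1) ∧ (0 ≤ p.2 ∧ p.2 ≤ 1) := by
  unfold I2
  rw [Set.mem_Icc, Prod.le_def, Prod.le_def]
  tauto

section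

variable {M : Type u} [MetricSpace M] {n : ℕ} (C : BoxCharts M n)

theorem symm_cont (i : Fin n) : ContinuousOn (C.e i).symm I2 :=
  (C.e i).continuousOn_symm.mono (C.box i)

theorem lemma_in (ε : ℝ) (hε : 0 < ε) : ∃ δ > 0, ∀ i, ∀ p ∈ I2, ∀ q ∈ I2, dist p q ≤ δ →
    dist ((C.e i).symm p) ((C.e i).symm q) < ε := by
  apply fin_min
  · intro i
    have h1 := I2_compact.uniformContinuousOn_of_continuous (symm_cont C i)
    rw [Metric.uniformContinuousOn_iff] at h1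
    obtain ⟨δ, hδ, h2⟩ := h1 ε hε
    exact ⟨δ / 2, by positivity, fun p hp q hq hpq => h2 p hp q hq (by linarith)⟩
  · intro i δ δ' _ h1 h2 p hp q hq hpq
    exact h2 p hp q hq (hpq.trans h1)

theorem lemma_out (ε : ℝ) (hε : 0 < ε) : ∃ δ > 0, ∀ i, ∀ p ∈ I2, ∀ y,
    dist ((C.e i).symm p) y < δ → y ∈ (C.e i).source ∧ dist (C.e i y) p < ε := by
  apply fin_min
  · intro i
    have hK : IsCompact ((C.e i).symm '' I2) := I2_compact.image_of_continuousOn (symm_cont C i)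
    obtain ⟨δ, hδ, h1⟩ := lebesgue_number_lemma_of_metric
      (c := fun z : ℝ × ℝ => (C.e i).source ∩ C.e i ⁻¹' Metric.ball z (ε / 2)) hK
      (fun z => (C.e i).isOpen_inter_preimage Metric.isOpen_ball) (by
        rintro _ ⟨p, hp, rfl⟩
        rw [Set.mem_iUnion]
        refine ⟨p, (C.e i).map_target (C.box i hp), ?_⟩
        show C.e i ((C.e i).symm p) ∈ Metric.ball p (ε / 2)
        rw [(C.e i).right_inv (C.box i hp)]
        exact Metric.mem_ball_self (by positivity))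
    refine ⟨δ, hδ, fun p hp y hy => ?_⟩
    obtain ⟨z, hz⟩ := h1 _ ⟨p, hp, rfl⟩
    have h2 := hz (Metric.mem_ball.2 (by rw [dist_comm]; exact hy) : y ∈ Metric.ball _ δ)
    have h3 := hz (Metric.mem_ball_self hδ)
    refine ⟨h2.1, ?_⟩
    have h4 : dist (C.e i y) z < ε / 2 := h2.2
    have h5 : dist (C.e i ((C.e i).symm p)) z < ε / 2 := h3.2
    rw [(C.e i).right_inv (C.box i hp)] at h5
    calc dist (C.e i y) p ≤ dist (C.e i y) z + dist z p := dist_triangle _ _ _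
      _ < ε / 2 + ε / 2 := by
        rw [dist_comm z p]
        linarith
      _ = ε := by ring
  · intro i δ δ' _ h1 h2 p hp y hy
    exact h2 p hp y (hy.trans_le h1)

theorem lemma_sep : ∃ μ > 0, ∀ i, ∀ p ∈ I2, ∀ q ∈ I2, dist p q = 1 →
    μ ≤ dist ((C.e i).symm p) ((C.e i).symm q) := by
  apply fin_min
  · intro i
    have hK : IsCompact ((I2 ×ˢ I2) ∩ {x : (ℝ × ℝ) × (ℝ × ℝ) | dist x.1 x.2 = 1}) :=
      (I2_compact.prod I2_compact).inter_right (isClosed_eq (by fun_prop) continuous_const)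
    have hne : ((I2 ×ˢ I2) ∩ {x : (ℝ × ℝ) × (ℝ × ℝ) | dist x.1 x.2 = 1}).Nonempty := by
      refine ⟨((0, 0), (0, 1)), ⟨?_, ?_⟩, ?_⟩
      · rw [mem_I2]; norm_num
      · rw [mem_I2]; norm_num
      · show dist ((0, 0) : ℝ × ℝ) (0, 1) = 1
        rw [Prod.dist_eq, Real.dist_eq, Real.dist_eq]
        norm_num
    have hc : ContinuousOn (fun x : (ℝ × ℝ) × (ℝ × ℝ) =>
        dist ((C.e i).symm x.1) ((C.e i).symm x.2))
        ((I2 ×ˢ I2) ∩ {x : (ℝ × ℝ) × (ℝ × ℝ) | dist x.1 x.2 = 1}) := by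
      refine continuous_dist.comp_continuousOn (ContinuousOn.prodMk ?_ ?_)
      · exact (symm_cont C i).comp continuousOn_fst fun x hx => hx.1.1
      · exact (symm_cont C i).comp continuousOn_snd fun x hx => hx.1.2
    obtain ⟨x, hx, hmin⟩ := hK.exists_isMinOn hne hc
    refine ⟨dist ((C.e i).symm x.1) ((C.e i).symm x.2), ?_, ?_⟩
    · rw [gt_iff_lt, dist_pos]
      intro h1
      have h2 : x.1 = x.2 := (C.e i).symm.injOn (C.box i hx.1.1) (C.box i hx.1.2) h1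
      have h3 : dist x.1 x.2 = 1 := hx.2
      rw [h2, dist_self] at h3
      exact zero_ne_one h3
    · intro p hp q hq hpq
      exact hmin (show (p, q) ∈ (I2 ×ˢ I2) ∩ {x : (ℝ × ℝ) × (ℝ × ℝ) | dist x.1 x.2 = 1} from
        ⟨⟨hp, hq⟩, hpq⟩)
  · intro i δ δ' _ h1 h2 p hp q hq hpq
    exact h1.trans (h2 p hp q hq hpq)

end

/-- one of the numbers `(k + σ) / m` is in a given interval -/
theorem pick {m : ℕ} (hm : 0 < m) {σ : ℝ} (h0 : 0 < σ) (h1 : σ < 1) {α β : ℝ} (hα : 0 ≤ α)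
    (hβ : β ≤ 1) (h : 1 / m < β - α) :
    ∃ k : Fin m, α < ((k : ℕ) + σ) / m ∧ ((k : ℕ) + σ) / m < β := by
  have hm' : (0 : ℝ) < m := by exact_mod_cast hm
  obtain ⟨z, hz⟩ : ∃ z : ℤ, z = ⌊α * m - σ⌋ + 1 := ⟨_, rfl⟩
  have h2 : α * m - σ < z := by
    rw [hz]
    push_cast
    exact Int.lt_floor_add_one _
  have h3 : (z : ℝ) ≤ α * m - σ + 1 := by
    rw [hz]
    push_cast
    have := Int.floor_le (α * m - σ)
    linarith
  have h4 : 1 < (β - α) * m := by
    rw [div_lt_iff₀ hm'] at h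
    exact h
  have h5 : 0 ≤ α * m := by positivity
  have h6 : β * m ≤ m := by nlinarith
  have h7 : (-1 : ℝ) < z := by linarith
  have h8 : (z : ℝ) < m := by nlinarith
  have h9 : 0 ≤ z := by
    have : (-1 : ℤ) < z := by exact_mod_cast h7
    omega
  obtain ⟨k, hk⟩ := Int.eq_ofNat_of_zero_le h9
  have hkz : (z : ℝ) = (k : ℝ) := by rw [hk]; simp
  have h10 : k < m := by
    have : (k : ℝ) < m := by rw [← hkz]; exact h8
    exact_mod_cast this
  refine ⟨⟨k, h10⟩, ?_, ?_⟩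
  · rw [lt_div_iff₀ hm']
    show α * m < (k : ℝ) + σ
    linarith
  · rw [div_lt_iff₀ hm']
    show (k : ℝ) + σ < β * m
    nlinarith

section

variable {M : Type u} [MetricSpace M] {n : ℕ} {C : BoxCharts M n} {m : ℕ}
  {s : Fin n → Bool → ℝ}

theorem lineC_mem (hm : 0 < m) (hg : Generic C m s) (l : LineIx n m) :
    0 < lineC m s l ∧ lineC m s l < 1 := by
  have h1 := hg.off l.1 l.2.1
  have hm' : (0 : ℝ) < m := by exact_mod_cast hm
  have h2 : ((l.2.2 : ℕ) : ℝ) + 1 ≤ m := by exact_mod_cast l.2.2.2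
  unfold lineC
  have h3 : (0 : ℝ) ≤ ((l.2.2 : ℕ) : ℝ) := Nat.cast_nonneg _
  constructor
  · exact div_pos (by linarith) hm'
  · rw [div_lt_one hm']
    linarith

theorem lineP_mem (hm : 0 < m) (hg : Generic C m s) (l : LineIx n m) {t : ℝ}
    (ht : t ∈ Set.Icc (0 : ℝ) 1) : lineP m s l t ∈ I2 := by
  have h1 := lineC_mem hm hg l
  rw [mem_I2]
  unfold lineP
  split_ifs
  · exact ⟨⟨h1.1.le, h1.2.le⟩, ht⟩
  · exact ⟨ht, ⟨h1.1.le, h1.2.le⟩⟩

theorem lineP_dist (l : LineIx n m) (t t' : ℝ) :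
    dist (lineP m s l t) (lineP m s l t') = |t - t'| := by
  unfold lineP
  split_ifs
  · rw [Prod.dist_eq, dist_self, Real.dist_eq]
    exact max_eq_right (abs_nonneg _)
  · rw [Prod.dist_eq, dist_self, Real.dist_eq]
    exact max_eq_left (abs_nonneg _)

/-- the perpendicular lines cross -/
theorem cross_mem (hm : 0 < m) (hg : Generic C m s) (l : LineIx n m) (k : Fin m) :
    lineC m s (l.1, !l.2.1, k) ∈ crossT C m s l := by
  have h1 := lineC_mem hm hg l
  have h2 := lineC_mem hm hg (l.1, !l.2.1, k)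
  refine ⟨⟨h2.1.le, h2.2.le⟩, (l.1, !l.2.1, k), ?_, lineC m s l, ⟨h1.1.le, h1.2.le⟩, ?_⟩
  · intro h
    have h3 := congrArg (fun x : LineIx n m => x.2.1) h
    simp at h3
  · unfold line
    congr 1
    obtain ⟨i, o, k'⟩ := l
    cases o
    · rfl
    · rfl

theorem cross_fin (hg : Generic C m s) (l : LineIx n m) : (crossT C m s l).Finite := by
  have h1 : crossT C m s l ⊆ ⋃ l' ∈ {l' : LineIx n m | l' ≠ l}, Prod.fst ''
      {q : ℝ × ℝ | q.1 ∈ Set.Icc (0 : ℝ) 1 ∧ q.2 ∈ Set.Icc (0 : ℝ) 1 ∧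
        line C m s l q.1 = line C m s l' q.2} := by
    rintro t ⟨ht, l', hl', t', ht', h⟩
    rw [Set.mem_iUnion₂]
    exact ⟨l', hl', (t, t'), ⟨ht, ht', h⟩, rfl⟩
  refine Set.Finite.subset ?_ h1
  refine Set.Finite.biUnion (Set.toFinite _) fun l' hl' => ?_
  exact (hg.fin l l' (Ne.symm hl')).image _

/-- darts at the crossings -/
theorem exists_dart (hg : Generic C m s) (l : LineIx n m) {t t' : ℝ} (ht : t ∈ crossT C m s l)
    (ht' : t' ∈ crossT C m s l) (hne : t' ≠ t) : ∃ d : ArrD C m s, d.1.1 = l ∧ d.1.2.1 = t := by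
  obtain ⟨u, hu, hmin⟩ := Set.exists_min_image (crossT C m s l \ {t}) (fun x => |x - t|)
    ((cross_fin hg l).subset Set.sdiff_subset) ⟨t', ht', hne⟩
  refine ⟨⟨(l, t, u), ht, hu.1, Ne.symm hu.2, ?_⟩, rfl, rfl⟩
  rintro v hv ⟨h1, h2⟩
  have h1' : min t u < v := h1
  have h2' : v < max t u := h2
  have hvt : v ≠ t := by
    rintro rfl
    rcases le_total v u with h | h
    · rw [min_eq_left h] at h1'
      exact lt_irrefl _ h1'
    · rw [max_eq_left h] at h2'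
      exact lt_irrefl _ h2'
  have h3 : |u - t| ≤ |v - t| := hmin v ⟨hv, hvt⟩
  rcases le_total t u with h | h
  · rw [min_eq_left h] at h1'
    rw [max_eq_right h] at h2'
    rw [abs_of_nonneg (by linarith), abs_of_nonneg (by linarith)] at h3
    linarith
  · rw [min_eq_right h] at h1'
    rw [max_eq_left h] at h2'
    rw [abs_of_nonpos (by linarith), abs_of_nonpos (by linarith)] at h3
    linarith

/-- consecutive crossing times are close -/
theorem dart_mesh (hm : 0 < m) (hg : Generic C m s) (d : ArrD C m s) :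
    |d.1.2.1 - d.1.2.2| ≤ 1 / m := by
  by_contra hcon
  rw [not_le] at hcon
  have h1 := d.2.1.1
  have h2 := d.2.2.1.1
  have h3 : max d.1.2.1 d.1.2.2 - min d.1.2.1 d.1.2.2 = |d.1.2.1 - d.1.2.2| :=
    max_sub_min_eq_abs' _ _
  obtain ⟨k, hk1, hk2⟩ := pick hm (hg.off d.1.1.1 (!d.1.1.2.1)).1 (hg.off d.1.1.1 (!d.1.1.2.1)).2
    (le_min h1.1 h2.1) (max_le h1.2 h2.2) (by rw [h3]; exact hcon)
  exact d.2.2.2.2 _ (cross_mem hm hg d.1.1 k) ⟨hk1, hk2⟩

/-- a dart near a given point of a chart -/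
theorem dart_dense (hm : 2 ≤ m) (hg : Generic C m s) (i : Fin n) {p : ℝ × ℝ}
    (h1 : 1 / m ≤ p.1) (h2 : p.1 ≤ 1 - 1 / m) (h3 : 1 / m ≤ p.2) (h4 : p.2 ≤ 1 - 1 / m) :
    ∃ d : ArrD C m s, ∃ q ∈ I2, dist p q ≤ 1 / m ∧ arrTl C m s d = (C.e i).symm q := by
  have hm0 : 0 < m := by omega
  have hm' : (0 : ℝ) < m := by exact_mod_cast hm0
  have hm1 : (0 : ℝ) < 1 / m := by positivity
  obtain ⟨k, hk1, hk2⟩ := pick hm0 (hg.off i true).1 (hg.off i true).2
    (α := p.1 - 1 / m) (β := p.1 + 1 / m) (by linarith) (by linarith) (by linarith)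
  obtain ⟨k', hk3, hk4⟩ := pick hm0 (hg.off i false).1 (hg.off i false).2
    (α := p.2 - 1 / m) (β := p.2 + 1 / m) (by linarith) (by linarith) (by linarith)
  have e1 := cross_mem hm0 hg (i, true, k) k'
  obtain ⟨k'', hk''⟩ : ∃ k'' : Fin m, k'' ≠ k' := by
    have : Nontrivial (Fin m) := Fin.nontrivial_iff_two_le.2 hm
    exact exists_ne k'
  have e2 := cross_mem hm0 hg (i, true, k) k''
  obtain ⟨d, hd1, hd2⟩ := exists_dart hg (i, true, k) e1 e2 (by
    intro h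
    apply hk''
    have h5 : (((k'' : ℕ) : ℝ) + s i false) / m = (((k' : ℕ) : ℝ) + s i false) / m := h
    rw [div_left_inj' hm'.ne', add_left_inj] at h5
    exact Fin.ext (by exact_mod_cast h5))
  refine ⟨d, (lineC m s (i, true, k), lineC m s (i, false, k')), ?_, ?_, ?_⟩
  · rw [mem_I2]
    have g1 := lineC_mem hm0 hg (i, true, k)
    have g2 := lineC_mem hm0 hg (i, false, k')
    exact ⟨⟨g1.1.le, g1.2.le⟩, ⟨g2.1.le, g2.2.le⟩⟩
  · rw [Prod.dist_eq, Real.dist_eq, Real.dist_eq]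
    have g1 : lineC m s (i, true, k) = (((k : ℕ) : ℝ) + s i true) / m := rfl
    have g2 : lineC m s (i, false, k') = (((k' : ℕ) : ℝ) + s i false) / m := rfl
    refine max_le ?_ ?_
    · rw [abs_le, g1]
      constructor <;> linarith
    · rw [abs_le, g2]
      constructor <;> linarith
  · unfold arrTl line
    rw [hd1, hd2]
    rfl

end

end Pool.Agent.TH317.CC.H111
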