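import Pool.Agent.TH111.CC.Cha
import Pool.Agent.TH111.CC.Chb

/-!
# CC-R5, part 3: assembly
-/

set_option autoImplicit false

universe u v w

namespace Pool.Agent.TH317.CC.H111

open Filter Topology

section Up

variable {D : Type v} {V Λ : Type w} [LinearOrder Λ]

/-- the same ribbon graph with darts in a larger universe -/
def upR (G : Rib D V Λ) : Rib (ULift.{u} D) V Λ where
  inv d := ⟨G.inv d.down⟩
  pos d := G.pos d.down
  tl d := G.tl d.down
  inv_inv d := by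
    show (⟨G.inv (G.inv d.down)⟩ : ULift.{u} D) = d
    rw [G.inv_inv]
  noloop d := G.noloop d.down
  pos_inj := fun a b h => ULift.down_injective (G.pos_inj h)
  block a b c := G.block a.down b.down c.down

variable (G : Rib D V Λ)

theorem walk_up (w : List (ULift.{u} D)) : ∀ x y : V,
    Walk (upR.{u} G) x y w ↔ Walk G x y (w.map ULift.down) := by
  induction w with
  | nil => intro x y; rfl
  | cons d l ih =>
    intro x y
    show (G.tl d.down = x ∧ Walk (upR.{u} G) (G.hd d.down) y l) ↔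
      (G.tl d.down = x ∧ Walk G (G.hd d.down) y (l.map ULift.down))
    rw [ih]

theorem getD_up [Inhabited D] (w : List (ULift.{u} D)) (k : ℕ) :
    (w.getD k default).down = (w.map ULift.down).getD k default := by
  rw [List.getD_eq_getElem?_getD, List.getD_eq_getElem?_getD, List.getElem?_map]
  cases w[k]? <;> rfl

theorem pass_up [Inhabited D] (w : List (ULift.{u} D)) (k : ℕ) :
    pass (upR.{u} G).ipos (upR.{u} G).pos w k = pass G.ipos G.pos (w.map ULift.down) k := by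
  have h1 : ∀ j, (upR.{u} G).ipos (w.getD j default) =
      G.ipos ((w.map ULift.down).getD j default) := by
    intro j
    rw [← getD_up]
    rfl
  have h2 : ∀ j, (upR.{u} G).pos (w.getD j default) =
      G.pos ((w.map ULift.down).getD j default) := by
    intro j
    rw [← getD_up]
    rfl
  unfold pass
  rw [h1, h2, List.length_map]

theorem intZero_up [Inhabited D] (S : Set V) (h : IntZero G S) : IntZero (upR.{u} G) S := by
  intro ζ y hζ hζS v y₁ y₂ hv hy₁ hy₂ hin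
  have h1 := h (ζ.map ULift.down) y ((walk_up G ζ y y).1 hζ) (by
    intro e he
    obtain ⟨e', he', rfl⟩ := List.mem_map.1 he
    exact hζS e' he') (v.map ULift.down) y₁ y₂ ((walk_up G v y₁ y₂).1 hv) hy₁ hy₂ (by
    intro k hk1 hk2
    rw [List.length_map] at hk2
    have h2 := hin k hk1 hk2
    rw [← getD_up]
    exact h2)
  rw [← h1]
  unfold crossSum
  rw [List.length_map, List.length_map]
  refine Finset.sum_congr rfl fun k _ => Finset.sum_congr rfl fun r _ => ?_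
  rw [pass_up, pass_up]

end Up

section Box

variable {M : Type u} [MetricSpace M] {n : ℕ} {C : BoxCharts M n}

/-- points of small boxes are in the unit square of the chart -/
theorem boxS_mem {i : Fin n} {p : ℝ × ℝ} {ξ : ℝ} (hp1 : 1 / 4 ≤ p.1 ∧ p.1 ≤ 3 / 4)
    (hp2 : 1 / 4 ≤ p.2 ∧ p.2 ≤ 3 / 4) (hξ : ξ ≤ 1 / 4) {x : M} (hx : x ∈ boxS C i p ξ) :
    C.e i x ∈ I2 ∧ dist p (C.e i x) ≤ ξ ∧ (C.e i).symm (C.e i x) = x := by
  obtain ⟨h1, h2, h3⟩ := hx
  refine ⟨?_, ?_, (C.e i).left_inv h1⟩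
  · rw [mem_I2]
    rw [abs_le] at h2 h3
    exact ⟨⟨by linarith, by linarith⟩, ⟨by linarith, by linarith⟩⟩
  · rw [Prod.dist_eq, Real.dist_eq, Real.dist_eq, abs_sub_comm, abs_sub_comm p.2]
    exact max_le h2 h3

end Box

end Pool.Agent.TH317.CC.H111

namespace Pool.Agent.TH317.CC

open Filter Topology

theorem fineGraph_of_orSurf
    (hgen : ∀ {M : Type u} [MetricSpace M] {n : ℕ} (C : BoxCharts M n) (m : ℕ)
      (_ : 1 ≤ m), ∃ s, Generic C m s)
    (hrib : ∀ {M : Type u} [MetricSpace M] {n : ℕ} (C : BoxCharts M n) (m : ℕ)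
      (_ : 1 ≤ m) (s : Fin n → Bool → ℝ) (_ : Generic C m s) {N : Type u} [LinearOrder N]
      (ν : M → N) (_ : Function.Injective ν),
      ∃ G : Rib (ArrD C m s) M (N ×ₗ ℕ), IsArrRib C m s ν G)
    (hint : ∀ {M : Type u} [MetricSpace M] {n : ℕ} (C : BoxCharts M n) (m : ℕ)
      (_ : 1 ≤ m) (s : Fin n → Bool → ℝ) (_ : Generic C m s) {N : Type u} [LinearOrder N]
      (ν : M → N) (G : Rib (ArrD C m s) M (N ×ₗ ℕ)) (_ : IsArrRib C m s ν G)
      [Inhabited (ArrD C m s)] (i : Fin n) (k₁ k₂ k₃ k₄ : Fin m) (_ : k₁ < k₂) (_ : k₃ < k₄),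
      IntZero G (rectS C m s i k₁ k₂ k₃ k₄))
    (hconn : ∀ {M : Type u} [MetricSpace M] {n : ℕ} (C : BoxCharts M n) (m : ℕ)
      (_ : 1 ≤ m) (s : Fin n → Bool → ℝ) (_ : Generic C m s) {N : Type u} [LinearOrder N]
      (ν : M → N) (G : Rib (ArrD C m s) M (N ×ₗ ℕ)) (_ : IsArrRib C m s ν G)
      (i : Fin n) (p : ℝ × ℝ) (η : ℝ) (_ : 0 < η) (_ : 8 / m < η)
      (_ : η < p.1 ∧ p.1 < 1 - η) (_ : η < p.2 ∧ p.2 < 1 - η)
      (_ : ∀ l : LineIx n m,
        ¬ (line C m s l 0 ∈ boxS C i p η ∧ line C m s l 1 ∈ boxS C i p η))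
      (d d' : ArrD C m s) (_ : G.tl d ∈ boxS C i p (η / 2))
      (_ : G.tl d' ∈ boxS C i p (η / 2)),
      ∃ w, Walk G (G.tl d) (G.tl d') w ∧
        ∀ e ∈ w, G.tl e ∈ boxS C i p η ∧ G.hd e ∈ boxS C i p η)
    {M : Type u} [MetricSpace M] (T : OrSurf M) : FineGraph M := by
  intro K hK hKne
  obtain ⟨n, C, hC⟩ := H111.exists_boxCharts T hK
  refine ⟨⋃ i, (C.e i).symm '' I2, isCompact_iUnion fun i =>
    H111.I2_compact.image_of_continuousOn (H111.symm_cont C i), ?_⟩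
  intro r hr
  obtain ⟨μ, hμ, hsep⟩ := H111.lemma_sep C
  obtain ⟨δ1, hδ1, h1⟩ := H111.lemma_in C r hr
  obtain ⟨η, hη0, hη1, hη2⟩ : ∃ η > 0, η ≤ 1 / 32 ∧ η ≤ δ1 :=
    ⟨min (1 / 32) δ1, lt_min (by norm_num) hδ1, min_le_left _ _, min_le_right _ _⟩
  obtain ⟨a0, ha0, h2⟩ := H111.lemma_out C (η / 4) (by positivity)
  obtain ⟨a, ha, haa, har⟩ : ∃ a > 0, a ≤ a0 ∧ a ≤ r :=
    ⟨min a0 r, lt_min ha0 hr, min_le_left _ _, min_le_right _ _⟩
  obtain ⟨ε, hε0, hε1, hε2⟩ : ∃ ε > 0, ε ≤ a / 4 ∧ ε ≤ μ / 2 :=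
    ⟨min (a / 4) (μ / 2), lt_min (by positivity) (by positivity), min_le_left _ _,
      min_le_right _ _⟩
  obtain ⟨δ2, hδ2, h3⟩ := H111.lemma_in C ε hε0
  obtain ⟨ξ, hξ0, hξ1, hξ2⟩ : ∃ ξ > 0, ξ ≤ 1 / 32 ∧ ξ ≤ δ2 :=
    ⟨min (1 / 32) δ2, lt_min (by norm_num) hδ2, min_le_left _ _, min_le_right _ _⟩
  obtain ⟨b0, hb0, h4⟩ := H111.lemma_out C (ξ / 2) (by positivity)
  obtain ⟨b, hb, hbb, hba⟩ : ∃ b > 0, b ≤ b0 ∧ b ≤ a / 2 :=
    ⟨min b0 (a / 2), lt_min hb0 (by positivity), min_le_left _ _, min_le_right _ _⟩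
  refine ⟨a, ha, b, hb, har, hba, fun ρ hρ => ?_⟩
  obtain ⟨δ3, hδ3, h5⟩ := H111.lemma_in C ρ hρ
  obtain ⟨κ, hκ0, hκ1, hκ2, hκ3, hκ4⟩ : ∃ κ > 0, κ ≤ ξ / 8 ∧ κ ≤ η / 4 ∧ κ ≤ δ3 ∧ κ ≤ 1 / 4 :=
    ⟨min (min (ξ / 8) (η / 4)) (min δ3 (1 / 4)),
      lt_min (lt_min (by positivity) (by positivity)) (lt_min hδ3 (by norm_num)),
      (min_le_left _ _).trans (min_le_left _ _), (min_le_left _ _).trans (min_le_right _ _),
      (min_le_right _ _).trans (min_le_left _ _), (min_le_right _ _).trans (min_le_right _ _)⟩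
  obtain ⟨m', hm'⟩ := exists_nat_one_div_lt hκ0
  obtain ⟨m, hm, hmκ⟩ : ∃ m : ℕ, 2 ≤ m ∧ (1 : ℝ) / m < κ := by
    refine ⟨m' + 1, ?_, by exact_mod_cast hm'⟩
    by_contra hcon
    have : m' = 0 := by omega
    rw [this] at hm'
    norm_num at hm'
    linarith
  have hm1 : 1 ≤ m := by omega
  have hm0 : 0 < m := by omega
  obtain ⟨s, hs⟩ := hgen C m hm1
  let _ : LinearOrder M := IsWellOrder.linearOrder WellOrderingRel
  obtain ⟨G, hG⟩ := hrib C m hm1 s hs (N := M) id Function.injective_id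
  -- the chart around a point of `K`
  have key : ∀ x ∈ K, ∃ i, ∃ p : ℝ × ℝ, (1 / 4 ≤ p.1 ∧ p.1 ≤ 3 / 4) ∧
      (1 / 4 ≤ p.2 ∧ p.2 ≤ 3 / 4) ∧ p ∈ I2 ∧ x = (C.e i).symm p := by
    intro x hx
    obtain ⟨i, hi, h6, h7⟩ := hC x hx
    refine ⟨i, C.e i x, h6, h7, ?_, ((C.e i).left_inv hi).symm⟩
    rw [H111.mem_I2]
    exact ⟨⟨by linarith [h6.1], by linarith [h6.2]⟩, ⟨by linarith [h7.1], by linarith [h7.2]⟩⟩
  have dense : ∀ x ∈ K, ∃ d : ArrD C m s, dist x (G.tl d) ≤ ρ := by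
    intro x hx
    obtain ⟨i, p, hp1, hp2, hpI, rfl⟩ := key x hx
    obtain ⟨d, q, hq, hpq, hd⟩ := H111.dart_dense hm hs i (p := p) (by linarith [hp1.1])
      (by linarith [hp1.2]) (by linarith [hp2.1]) (by linarith [hp2.2])
    refine ⟨d, ?_⟩
    rw [hG.tl, hd]
    exact (h5 i p hpI q hq (by linarith)).le
  obtain ⟨x0, hx0⟩ := hKne
  obtain ⟨d0, -⟩ := dense x0 hx0
  let _ : Inhabited (ArrD C m s) := ⟨d0⟩
  refine ⟨ULift.{u} (ArrD C m s), M ×ₗ ℕ, inferInstance, inferInstance, H111.upR.{u} G, ?_⟩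
  constructor
  · -- inK'
    intro d
    show G.tl d.down ∈ _
    rw [hG.tl, Set.mem_iUnion]
    exact ⟨d.down.1.1.1, _, H111.lineP_mem hm0 hs _ d.down.2.1.1, rfl⟩
  · -- mesh
    intro d
    show dist (G.tl d.down) (G.tl (G.inv d.down)) ≤ ρ
    rw [hG.tl, hG.inv]
    have h6 := H111.dart_mesh hm0 hs d.down
    refine (h5 d.down.1.1.1 _ (H111.lineP_mem hm0 hs _ d.down.2.1.1) _
      (H111.lineP_mem hm0 hs _ d.down.2.2.1.1) ?_).le
    show dist (lineP m s d.down.1.1 d.down.1.2.1) (lineP m s d.down.1.1 d.down.1.2.2) ≤ δ3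
    rw [H111.lineP_dist]
    linarith
  · -- dense
    intro x hx
    obtain ⟨d, hd⟩ := dense x hx
    exact ⟨⟨d⟩, hd⟩
  · -- conn
    intro x hx d d' hd hd'
    obtain ⟨i, p, hp1, hp2, hpI, rfl⟩ := key x hx
    have hbox : ∀ y, y ∈ boxS C i p ξ → dist ((C.e i).symm p) y < ε := by
      intro y hy
      obtain ⟨h6, h7, h8⟩ := H111.boxS_mem hp1 hp2 (by linarith) hy
      rw [← h8]
      exact h3 i p hpI _ h6 (by linarith)
    have hin : ∀ e : ArrD C m s, dist ((C.e i).symm p) (G.tl e) < b →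
        G.tl e ∈ boxS C i p (ξ / 2) := by
      intro e he
      obtain ⟨h6, h7⟩ := h4 i p hpI _ (lt_of_lt_of_le he hbb)
      rw [Prod.dist_eq, max_lt_iff, Real.dist_eq, Real.dist_eq] at h7
      exact ⟨h6, h7.1.le, h7.2.le⟩
    obtain ⟨w, hw1, hw2⟩ := hconn C m hm1 s hs id G hG i p ξ hξ0 (by
        have : (8 : ℝ) / m = 8 * (1 / m) := by ring
        rw [this]
        linarith) ⟨by linarith [hp1.1], by linarith [hp1.2]⟩
      ⟨by linarith [hp2.1], by linarith [hp2.2]⟩ (by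
        rintro l ⟨h6, h7⟩
        have h8 := hbox _ h6
        have h9 := hbox _ h7
        have h10 := hsep l.1 _ (H111.lineP_mem hm0 hs l (by norm_num : (0 : ℝ) ∈ Set.Icc (0 : ℝ) 1))
          _ (H111.lineP_mem hm0 hs l (by norm_num : (1 : ℝ) ∈ Set.Icc (0 : ℝ) 1)) (by
            rw [H111.lineP_dist]
            norm_num)
        have h11 := dist_triangle_left (line C m s l 0) (line C m s l 1) ((C.e i).symm p)
        have h12 : μ ≤ dist (line C m s l 0) (line C m s l 1) := h10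
        linarith) d.down d'.down (hin _ hd) (hin _ hd')
    refine ⟨w.map ULift.up, ?_, ?_⟩
    · rw [H111.walk_up, List.map_map]
      have : ULift.down ∘ ULift.up = (id : ArrD C m s → ArrD C m s) := rfl
      rw [this, List.map_id]
      exact hw1
    · intro e he
      obtain ⟨e', he', rfl⟩ := List.mem_map.1 he
      obtain ⟨h6, h7⟩ := hw2 e' he'
      have h8 := hbox _ h6
      have h9 := hbox _ h7
      refine ⟨?_, ?_⟩
      · show dist _ (G.tl e') < a / 2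
        linarith
      · show dist _ (G.hd e') < a / 2
        linarith
  · -- int
    intro x hx
    obtain ⟨i, p, hp1, hp2, hpI, rfl⟩ := key x hx
    obtain ⟨k₁, h11, h12⟩ := H111.pick hm0 (hs.off i true).1 (hs.off i true).2
      (α := p.1 - η) (β := p.1 - η / 2) (by linarith [hp1.1]) (by linarith [hp1.2]) (by linarith)
    obtain ⟨k₂, h21, h22⟩ := H111.pick hm0 (hs.off i true).1 (hs.off i true).2
      (α := p.1 + η / 2) (β := p.1 + η) (by linarith [hp1.1]) (by linarith [hp1.2]) (by linarith)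
    obtain ⟨k₃, h31, h32⟩ := H111.pick hm0 (hs.off i false).1 (hs.off i false).2
      (α := p.2 - η) (β := p.2 - η / 2) (by linarith [hp2.1]) (by linarith [hp2.2]) (by linarith)
    obtain ⟨k₄, h41, h42⟩ := H111.pick hm0 (hs.off i false).1 (hs.off i false).2
      (α := p.2 + η / 2) (β := p.2 + η) (by linarith [hp2.1]) (by linarith [hp2.2]) (by linarith)
    have hmr : (0 : ℝ) < m := by exact_mod_cast hm0
    have hk12 : k₁ < k₂ := by
      have h6 : (((k₁ : ℕ) : ℝ) + s i true) / m < (((k₂ : ℕ) : ℝ) + s i true) / m := by linarith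
      rw [div_lt_div_iff_of_pos_right hmr, add_lt_add_iff_right] at h6
      exact_mod_cast h6
    have hk34 : k₃ < k₄ := by
      have h6 : (((k₃ : ℕ) : ℝ) + s i false) / m < (((k₄ : ℕ) : ℝ) + s i false) / m := by linarith
      rw [div_lt_div_iff_of_pos_right hmr, add_lt_add_iff_right] at h6
      exact_mod_cast h6
    refine ⟨rectS C m s i k₁ k₂ k₃ k₄, ?_, ?_, H111.intZero_up G _
      (hint C m hm1 s hs id G hG i k₁ k₂ k₃ k₄ hk12 hk34)⟩
    · intro y hy
      rw [Metric.mem_ball, dist_comm] at hy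
      obtain ⟨h6, h7⟩ := h2 i p hpI y (lt_of_lt_of_le hy haa)
      rw [Prod.dist_eq, max_lt_iff, Real.dist_eq, Real.dist_eq, abs_lt, abs_lt] at h7
      refine ⟨h6, ?_, ?_, ?_, ?_⟩
      · show (((k₁ : ℕ) : ℝ) + s i true) / m < _
        linarith [h7.1.1]
      · show _ < (((k₂ : ℕ) : ℝ) + s i true) / m
        linarith [h7.1.2]
      · show (((k₃ : ℕ) : ℝ) + s i false) / m < _
        linarith [h7.2.1]
      · show _ < (((k₄ : ℕ) : ℝ) + s i false) / m
        linarith [h7.2.2]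
    · rintro y ⟨h6, h7, h8, h9, h10⟩
      have g7 : (((k₁ : ℕ) : ℝ) + s i true) / m < (C.e i y).1 := h7
      have g8 : (C.e i y).1 < (((k₂ : ℕ) : ℝ) + s i true) / m := h8
      have g9 : (((k₃ : ℕ) : ℝ) + s i false) / m < (C.e i y).2 := h9
      have g10 : (C.e i y).2 < (((k₄ : ℕ) : ℝ) + s i false) / m := h10
      have hy : y ∈ boxS C i p η := by
        refine ⟨h6, ?_, ?_⟩
        · rw [abs_le]
          constructor <;> linarith
        · rw [abs_le]
          constructor <;> linarith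
      obtain ⟨q1, q2, q3⟩ := H111.boxS_mem hp1 hp2 (by linarith) hy
      rw [Metric.mem_ball, dist_comm, ← q3]
      exact h1 i p hpI _ q1 (by linarith)

end Pool.Agent.TH317.CC
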